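import Pool.Agent.MP_eb915b_lc.Few.D

set_option autoImplicit false

namespace Pool.Agent.Results.MP_eb915b_lc.FewStrips

open Pool.Agent.MP_eb915b_lc

/-- A polynomial-time gap reduction from Clique to Maximal Strip Recovery on two permutations
with a bound on the number of strips: `2 k (2 k + 1)` strips suffice if there is a `k`-clique,
and otherwise more than `pad.length` strips are needed. -/
theorem result :
    ∃ f : List (List Bool) × ℕ × List Bool → List ℕ × List ℕ × ℕ,
      N68a2faeb.IsPolyTime f ∧
      ∀ (n : ℕ) (G : SimpleGraph (Fin n)) (k : ℕ) (pad : List Bool) (G₁ G₂ : List ℕ) (m : ℕ),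
        f (adjRows G, k, pad) = (G₁, G₂, m) →
          G₁.Nodup ∧ G₁.Perm G₂ ∧
            ((∃ s : Finset (Fin n), G.IsNClique k s) →
              FewStrips G₁ G₂ m (2 * k * (2 * k + 1))) ∧
            (FewStrips G₁ G₂ m pad.length → ∃ s : Finset (Fin n), G.IsNClique k s) :=
  ⟨Few.reduction, Few.isPolyTime_reduction,
    fun _ G k pad G₁ G₂ m h => Few.reduction_spec G k pad G₁ G₂ m h⟩

end Pool.Agent.Results.MP_eb915b_lc.FewStrips
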