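import Pool.Agent.Mg.Xeb915b.Ga4098b

set_option autoImplicit false

namespace Pool.Agent.Results.MP_eb915b_lc.NoKernel

open Pool.Agent.MP_eb915b_lc.Ker

/-- Maximal Strip Recovery on two permutations has no polynomial kernel or compression for the
retained length unless coNP is contained in NP/poly. -/
theorem result {β : Type} [N487b59b3 β] (κ : List ℕ × List ℕ × ℕ → β)
    (hκ : N68a2faeb.IsPolyTime κ) (p : Polynomial ℕ) (R : Set β)
    (h : ∀ (G₁ G₂ : List ℕ) (k : ℕ), G₁.Nodup → G₁.Perm G₂ →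
      (N487b59b3.bitEncode (κ (G₁, G₂, k))).length ≤ p.eval k ∧
        (MSR G₁ G₂ k ↔ κ (G₁, G₂, k) ∈ R)) :
    N68a2faeb.coNP ⊆ NPpoly :=
  no_kernel κ hκ p R h

end Pool.Agent.Results.MP_eb915b_lc.NoKernel
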