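import Pool.Agent.Mg.Xeb915b.G7b1aec

set_option autoImplicit false

namespace Pool.Agent.Results.MP_eb915b_lc.SuperExp

open Pool.Agent.MP_eb915b_lc

/-- A reduction from 3-SAT with `N = 16 ^ d` clauses and variables to Maximal Strip Recovery on
two permutations. It runs in time polynomial in `2 ^ (3 N ^ (3 / 4))` (the length of the padding)
and outputs a list of instances, each with parameter at most `66 N / d`; the formula is
satisfiable if and only if one of the instances is a yes-instance. -/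
theorem result :
    ∃ f : List (List (ℕ × Bool)) × ℕ × List Bool → List (List ℕ × List ℕ × ℕ),
      N68a2faeb.IsPolyTime f ∧
      ∀ (d : ℕ) (φ : List (List (ℕ × Bool))) (pad : List Bool), 1 ≤ d → φ.length ≤ 16 ^ d →
        (∀ C ∈ φ, C.length ≤ 3 ∧ ∀ l ∈ C, l.1 < 16 ^ d) → 2 ^ (3 * 8 ^ d) ≤ pad.length →
        (∀ I ∈ f (φ, d, pad), I.1.Nodup ∧ I.1.Perm I.2.1 ∧ I.2.2 * d ≤ 66 * 16 ^ d) ∧
        ((∃ σ : ℕ → Bool, ∀ C ∈ φ, ∃ l ∈ C, σ l.1 = l.2) ↔
          ∃ I ∈ f (φ, d, pad), MSR I.1 I.2.1 I.2.2) :=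
  ⟨satReduction, isPolyTime_satReduction, fun _ _ _ hd hlen hφ hT =>
    satReduction_spec hd hlen hφ hT⟩

end Pool.Agent.Results.MP_eb915b_lc.SuperExp
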