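import Pool.Agent.Mg.Xeb915b.G8b3df9

set_option autoImplicit false

namespace Pool.Agent.Results.MP_eb915b_lc.ThreeHard

open Pool.Agent.MP_eb915b_lc

/-- A polynomial-time parameterized reduction from Clique to Maximal Strip Recovery on three
permutations: the new parameter is at most `4 k ^ 2`. -/
theorem result :
    ∃ f : List (List Bool) × ℕ → List ℕ × List ℕ × List ℕ × ℕ,
      N68a2faeb.IsPolyTime f ∧
      ∀ (n : ℕ) (G : SimpleGraph (Fin n)) (k : ℕ) (G₁ G₂ G₃ : List ℕ) (m : ℕ),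
        f (adjRows G, k) = (G₁, G₂, G₃, m) →
          G₁.Nodup ∧ G₁.Perm G₂ ∧ G₁.Perm G₃ ∧ m ≤ 4 * k ^ 2 ∧
            ((∃ s : Finset (Fin n), G.IsNClique k s) ↔ MSR3 G₁ G₂ G₃ m) :=
  ⟨reduction, isPolyTime_reduction, fun _ G k G₁ G₂ G₃ m h => reduction_spec G k G₁ G₂ G₃ m h⟩

end Pool.Agent.Results.MP_eb915b_lc.ThreeHard
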